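import Pool.Agent.Run7.h900.MX.Stm

set_option autoImplicit false

/-! Pieces HF and HALL of the project MX (MP_c2f9c6_al). -/

universe u

namespace Run7.h648.MX

open Run7.h900.MX

theorem t_HF : S_HF.{u} := by
  intro Γ _ _ N hN π hπ
  have h1 : ∀ p ∈ π, ∃ K : Subgroup Γ, K.Normal ∧ K ≤ N ∧ ¬ p ∣ Nat.card K ∧
      ∀ x ∈ N, ∃ k : ℕ, x ^ p ^ k ∈ K := fun p hp => (hπ p hp).2
  choose! Kf hKn hKN hKc hKx using h1
  have hmem : ∀ x, x ∈ N ⊓ ⨅ p ∈ π, Kf p ↔ x ∈ N ∧ ∀ p ∈ π, x ∈ Kf p := by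
    intro x
    simp [Subgroup.mem_inf, Subgroup.mem_iInf]
  refine ⟨N ⊓ ⨅ p ∈ π, Kf p, ⟨?_⟩, inf_le_left, ?_, ?_⟩
  · intro x hx g
    rw [hmem] at hx ⊢
    exact ⟨hN.conj_mem x hx.1 g, fun p hp => (hKn p hp).conj_mem x (hx.2 p hp) g⟩
  · intro x hx
    rw [hmem]
    constructor
    · rintro ⟨-, h⟩ p hp hd
      exact hKc p hp (hd.trans (Subgroup.orderOf_dvd_natCard _ (h p hp)))
    · intro h
      refine ⟨hx, fun p hp => ?_⟩
      obtain ⟨k, hk⟩ := hKx p hp x hx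
      have hc : (p ^ k).Coprime (orderOf x) :=
        Nat.Coprime.pow_left _ (((hπ p hp).1.coprime_iff_not_dvd).2 (h p hp))
      obtain ⟨m, hm⟩ := exists_pow_eq_self_of_coprime hc
      rw [← hm]
      exact Subgroup.pow_mem _ hk m
  · intro x hx
    have h2 : ∀ p ∈ π, ∃ k : ℕ, x ^ p ^ k ∈ Kf p := fun p hp => hKx p hp x hx
    choose! k hk using h2
    refine ⟨∏ p ∈ π, p ^ k p, ?_, ?_, ?_⟩
    · exact Finset.prod_ne_zero_iff.2 fun p hp => pow_ne_zero _ (hπ p hp).1.ne_zero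
    · intro q hq hd
      obtain ⟨p, hp, hqp⟩ := (Prime.dvd_finsetProd_iff hq.prime _).1 hd
      have := (Nat.prime_dvd_prime_iff_eq hq (hπ p hp).1).1 (hq.dvd_of_dvd_pow hqp)
      rw [this]
      exact hp
    · rw [hmem]
      refine ⟨Subgroup.pow_mem _ hx _, fun p hp => ?_⟩
      obtain ⟨c, hc⟩ := Finset.dvd_prod_of_mem (fun p => p ^ k p) hp
      rw [hc, pow_mul]
      exact Subgroup.pow_mem _ (hk p hp) c

variable {G : Type u} [Group G] [TopologicalSpace G] [IsTopologicalGroup G] [CompactSpace G]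

lemma fin_quot (U : OpenNormalSubgroup G) : Finite (G ⧸ U.toSubgroup) := by
  have := Subgroup.quotient_finite_of_isOpen U.toSubgroup U.isOpen'
  exact this

omit [IsTopologicalGroup G] [CompactSpace G] in
lemma pr_eq_one (U : OpenNormalSubgroup G) (x : G) : pr U x = 1 ↔ x ∈ U.toSubgroup :=
  QuotientGroup.eq_one_iff x

omit [IsTopologicalGroup G] [CompactSpace G] in
lemma pr_surj (U : OpenNormalSubgroup G) : Function.Surjective (pr U) :=
  QuotientGroup.mk'_surjective _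

omit [CompactSpace G] in
lemma pre_closed (U : OpenNormalSubgroup G) (S : Set (G ⧸ U.toSubgroup)) :
    IsClosed (pr U ⁻¹' S) := by
  have : DiscreteTopology (G ⧸ U.toSubgroup) := QuotientGroup.discreteTopology U.isOpen'
  exact (isClosed_discrete S).preimage continuous_quot_mk

omit [IsTopologicalGroup G] [CompactSpace G] in
lemma inf_mem (U V : OpenNormalSubgroup G) (x : G) :
    x ∈ (U ⊓ V).toSubgroup ↔ x ∈ U.toSubgroup ∧ x ∈ V.toSubgroup := Iff.rfl

omit [IsTopologicalGroup G] [CompactSpace G] in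
/-- the order modulo a bigger subgroup divides the order modulo a smaller one -/
lemma ord_dvd (U V : OpenNormalSubgroup G) (h : ∀ x, x ∈ U.toSubgroup → x ∈ V.toSubgroup)
    (x : G) : orderOf (pr V x) ∣ orderOf (pr U x) := by
  rw [orderOf_dvd_iff_pow_eq_one, ← map_pow, pr_eq_one]
  apply h
  rw [← pr_eq_one, map_pow, pow_orderOf_eq_one]

theorem t_HALL : S_HF.{u} → S_HALL.{u} := by
  intro hHF G _ _ _ _ _ _ N π hπ hP
  have h1 : ∀ U : OpenNormalSubgroup G, ∃ K : Subgroup (G ⧸ U.toSubgroup), K.Normal ∧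
      K ≤ N.toSubgroup.map (pr U) ∧
      (∀ x ∈ N.toSubgroup.map (pr U), (x ∈ K ↔ ∀ p ∈ π, ¬ p ∣ orderOf x)) ∧
      ∀ x ∈ N.toSubgroup.map (pr U), ∃ m : ℕ, m ≠ 0 ∧
        (∀ q : ℕ, q.Prime → q ∣ m → q ∈ π) ∧ x ^ m ∈ K := by
    intro U
    have := fin_quot U
    exact hHF (G ⧸ U.toSubgroup) (N.toSubgroup.map (pr U))
      (N.isNormal'.map _ (pr_surj U)) π (fun p hp => ⟨hπ p hp, hP p hp U⟩)
  choose KU hKn hKN hKi hKm using h1
  -- monotonicity
  have mono : ∀ U V : OpenNormalSubgroup G, (∀ x, x ∈ U.toSubgroup → x ∈ V.toSubgroup) →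
      ∀ x ∈ N.toSubgroup, pr U x ∈ KU U → pr V x ∈ KU V := by
    intro U V h x hx hxU
    rw [hKi V _ (Subgroup.mem_map_of_mem _ hx)]
    rw [hKi U _ (Subgroup.mem_map_of_mem _ hx)] at hxU
    exact fun p hp hd => hxU p hp (hd.trans (ord_dvd U V h x))
  have hmem : ∀ x, x ∈ N.toSubgroup ⊓ ⨅ U : OpenNormalSubgroup G, (KU U).comap (pr U) ↔
      x ∈ N.toSubgroup ∧ ∀ U : OpenNormalSubgroup G, pr U x ∈ KU U := by
    intro x
    simp only [Subgroup.mem_inf, Subgroup.mem_iInf, Subgroup.mem_comap]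
  -- the key claim
  have key : ∀ U : OpenNormalSubgroup G, ∀ y ∈ KU U,
      ∃ x ∈ N.toSubgroup ⊓ ⨅ U : OpenNormalSubgroup G, (KU U).comap (pr U), pr U x = y := by
    intro U y hy
    let C : OpenNormalSubgroup G → Set G := fun W =>
      {x | x ∈ N.toSubgroup} ∩ (pr U ⁻¹' {y} ∩ pr (W ⊓ U) ⁻¹' (KU (W ⊓ U) : Set _))
    have hCcl : ∀ W, IsClosed (C W) := by
      intro W
      refine IsClosed.inter ?_ ((pre_closed U _).inter (pre_closed _ _))
      exact Subgroup.isClosed_of_isOpen N.toSubgroup N.isOpen'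
    have hne : (⋂ W, C W).Nonempty := by
      have : Nonempty (OpenNormalSubgroup G) := ⟨U⟩
      refine IsCompact.nonempty_iInter_of_directed_nonempty_isCompact_isClosed C ?_ ?_
        (fun W => (hCcl W).isCompact) hCcl
      · intro W1 W2
        refine ⟨W1 ⊓ W2, ?_, ?_⟩
        · rintro x ⟨hx1, hx2, hx3⟩
          exact ⟨hx1, hx2, mono ((W1 ⊓ W2) ⊓ U) (W1 ⊓ U)
            (fun z hz => ⟨hz.1.1, hz.2⟩) x hx1 hx3⟩
        · rintro x ⟨hx1, hx2, hx3⟩
          exact ⟨hx1, hx2, mono ((W1 ⊓ W2) ⊓ U) (W2 ⊓ U)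
            (fun z hz => ⟨hz.1.2, hz.2⟩) x hx1 hx3⟩
      · intro W
        obtain ⟨x0, hx0, rfl⟩ := Subgroup.mem_map.1 (hKN U hy)
        obtain ⟨m, hm0, hmq, hmK⟩ := hKm (W ⊓ U) _ (Subgroup.mem_map_of_mem _ hx0)
        have hyo := (hKi U _ (Subgroup.mem_map_of_mem _ hx0)).1 hy
        have hc : m.Coprime (orderOf (pr U x0)) := by
          refine Nat.Coprime.symm (Nat.coprime_of_dvd fun q hq hd hqm => ?_)
          exact hyo q (hmq q hq hqm) hd
        obtain ⟨e, he⟩ := exists_pow_eq_self_of_coprime hc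
        refine ⟨(x0 ^ m) ^ e, Subgroup.pow_mem _ (Subgroup.pow_mem _ hx0 _) _, ?_, ?_⟩
        · simp only [Set.mem_preimage, Set.mem_singleton_iff, map_pow]
          exact he
        · simp only [Set.mem_preimage, SetLike.mem_coe, map_pow]
          exact Subgroup.pow_mem _ hmK e
    obtain ⟨x, hx⟩ := hne
    rw [Set.mem_iInter] at hx
    refine ⟨x, ?_, (hx U).2.1⟩
    rw [hmem]
    exact ⟨(hx U).1, fun W => mono (W ⊓ U) W (fun z hz => hz.1) x (hx W).1 (hx W).2.2⟩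
  refine ⟨N.toSubgroup ⊓ ⨅ U : OpenNormalSubgroup G, (KU U).comap (pr U), ⟨?_⟩, ?_, inf_le_left,
    ?_, ?_⟩
  · intro x hx g
    rw [hmem] at hx ⊢
    refine ⟨N.isNormal'.conj_mem x hx.1 g, fun U => ?_⟩
    rw [map_mul, map_mul, map_inv]
    exact (hKn U).conj_mem _ (hx.2 U) _
  · have e : ((N.toSubgroup ⊓ ⨅ U : OpenNormalSubgroup G, (KU U).comap (pr U) : Subgroup G) : Set G)
        = {x | x ∈ N.toSubgroup} ∩ ⋂ U : OpenNormalSubgroup G, pr U ⁻¹' (KU U : Set _) := by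
      ext x
      rw [SetLike.mem_coe, hmem]
      simp
    rw [e]
    exact IsClosed.inter (Subgroup.isClosed_of_isOpen N.toSubgroup N.isOpen')
      (isClosed_iInter fun U => pre_closed U _)
  · intro U p hp hd
    have := fin_quot U
    have hle : (N.toSubgroup ⊓ ⨅ U : OpenNormalSubgroup G, (KU U).comap (pr U)).map (pr U)
        ≤ KU U := by
      rintro _ ⟨x, hx, rfl⟩
      exact ((hmem x).1 hx).2 U
    have hd2 : p ∣ Nat.card (KU U) := hd.trans (Subgroup.card_dvd_of_le hle)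
    have : Fact p.Prime := ⟨hπ p hp⟩
    obtain ⟨z, hz⟩ := exists_prime_orderOf_dvd_card' p hd2
    have hz2 := (hKi U (z : G ⧸ U.toSubgroup) (hKN U z.2)).1 z.2 p hp
    apply hz2
    rw [Subgroup.orderOf_coe, hz]
  · intro U x hx
    obtain ⟨m, hm0, hmq, hmK⟩ := hKm U _ (Subgroup.mem_map_of_mem _ hx)
    refine ⟨m, hm0, hmq, ?_⟩
    rw [map_pow]
    obtain ⟨z, hz, hzz⟩ := key U _ hmK
    exact ⟨z, hz, hzz⟩

end Run7.h648.MX
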